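import Mathlib

set_option autoImplicit false

namespace Pool.Agent.Results.MP_bd62ae_co.Disproof

/-- The nim-value (Sprague-Grundy value) of a pile of `n` coins in the subtraction game with
subtraction set `S`: the minimal excludant of the nim-values of the options `n - s`, for `s ∈ S`
with `0 < s ≤ n`. -/
noncomputable def nimValue (S : Finset ℕ) (n : ℕ) : ℕ :=
  sInf {m : ℕ | ∀ s ∈ S, ∀ _h : 0 < s ∧ s ≤ n, nimValue S (n - s) ≠ m}
termination_by n
decreasing_by omega

/-- From some point `n₀` on, the nim-sequence of `S` alternates `0,1,0,1,...` (so its least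
period is `2`). -/
def UltimatelyBipartite (S : Finset ℕ) : Prop :=
  ∃ n₀ : ℕ, ∀ n : ℕ, n₀ ≤ n → nimValue S n = (n - n₀) % 2

/-- `S^ex`: the set of all positive integers `s` with `G(n+s) ≠ G(n)` for all `n ≥ 0`. -/
def expansion (S : Finset ℕ) : Set ℕ :=
  {s : ℕ | 0 < s ∧ ∀ n : ℕ, nimValue S (n + s) ≠ nimValue S n}

/-- explicit nim-sequence of `{3, 6k-1, 6k+3}` -/
def g (k n : ℕ) : ℕ :=
  if n < 6 * k then (if n % 6 < 3 then 0 else 1)
  else if n < 12 * k then
    (if n % 6 = 0 ∨ n % 6 = 1 then 2 else if n % 6 = 2 then 0 else if n % 6 = 5 then 1 else 3)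
  else if n = 12 * k + 1 then 2
  else n % 2

lemma mex_eq (A : Set ℕ) (v : ℕ) (hv : v ∈ A) (hlt : ∀ m, m < v → m ∉ A) : sInf A = v := by
  apply le_antisymm (Nat.sInf_le hv)
  by_contra hcon
  push Not at hcon
  exact hlt _ hcon (Nat.sInf_mem ⟨v, hv⟩)

lemma key (k : ℕ) (hk : 2 ≤ k) (n m : ℕ) (hm : m < g k n) :
    (3 ≤ n ∧ g k (n - 3) = m) ∨ (6 * k - 1 ≤ n ∧ g k (n - (6 * k - 1)) = m) ∨
          (6 * k + 3 ≤ n ∧ g k (n - (6 * k + 3)) = m) := by
  by_contra hcon
  push Not at hcon
  obtain ⟨h1, h2, h3⟩ := hcon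
  unfold g at hm
  split_ifs at hm with c1 c2 c3 c4 c5 c6 c7
  · omega
  · have := h1 (by omega)
    unfold g at this
    split_ifs at this <;> omega
  · -- n in [6k,12k), n%6 in {0,1}
    by_cases hj : n < 6 * k + 2
    · have h1' := h1 (by omega)
      have h2' := h2 (by omega)
      unfold g at h1' h2'
      split_ifs at h1' <;> first | omega | (split_ifs at h2' <;> omega)
    · have h2' := h2 (by omega)
      have h3' := h3 (by omega)
      unfold g at h2' h3'
      split_ifs at h2' <;> first | omega | (split_ifs at h3' <;> omega)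
  · omega
  · -- n%6=5 : value 1, m=0
    have h1' := h1 (by omega)
    unfold g at h1'
    split_ifs at h1' <;> omega
  · -- n%6 in {3,4}: value 3 ; m = 0,1,2
    have h1' := h1 (by omega)
    have h2' := h2 (by omega)
    have h3' := h3 (by omega)
    unfold g at h1' h2' h3'
    split_ifs at h1' <;> first | omega | (split_ifs at h2' <;> first | omega | (split_ifs at h3' <;> omega))
  · -- n = 12k+1, m = 0,1
    have h1' := h1 (by omega)
    have h2' := h2 (by omega)
    have h3' := h3 (by omega)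
    unfold g at h1' h2' h3'
    split_ifs at h1' <;> first | omega | (split_ifs at h2' <;> first | omega | (split_ifs at h3' <;> omega))
  · -- n ≥ 12k, value n%2, so n odd, m=0
    have h1' := h1 (by omega)
    unfold g at h1'
    split_ifs at h1' <;> omega

lemma nim_eq (k : ℕ) (hk : 2 ≤ k) (n : ℕ) :
    nimValue {3, 6 * k - 1, 6 * k + 3} n = g k n := by
  induction n using Nat.strong_induction_on with
  | _ n ih =>
    rw [nimValue]
    apply mex_eq
    · simp only [Set.mem_ofPred_eq]
      rintro s hs ⟨h0, hn⟩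
      rw [ih (n - s) (by omega)]
      simp only [Finset.mem_insert, Finset.mem_singleton] at hs
      unfold g
      rcases hs with rfl | rfl | rfl <;> split_ifs <;> omega
    · intro m hm hmem
      simp only [Set.mem_ofPred_eq] at hmem
      have h1 := hmem 3 (by simp)
      have h2 := hmem (6 * k - 1) (by simp)
      have h3 := hmem (6 * k + 3) (by simp)
      rcases key k hk n m hm with ⟨ha, hb⟩ | ⟨ha, hb⟩ | ⟨ha, hb⟩
      · exact h1 ⟨by omega, ha⟩ (by rw [ih _ (by omega)]; exact hb)
      · exact h2 ⟨by omega, ha⟩ (by rw [ih _ (by omega)]; exact hb)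
      · exact h3 ⟨by omega, ha⟩ (by rw [ih _ (by omega)]; exact hb)

lemma ex_aux (k : ℕ) (hk : 2 ≤ k) (s : ℕ) (h0 : 0 < s) (h : ∀ n : ℕ, g k (n + s) ≠ g k n) :
    s = 3 ∨ s = 6 * k - 1 ∨ s = 6 * k + 3 ∨ (9 ≤ s ∧ s < 6 * k ∧ s % 6 = 3) := by
  have hodd : s % 2 = 1 := by
    have h1 := h (12 * k + 2)
    unfold g at h1
    split_ifs at h1 <;> omega
  have h6 : s % 6 = 1 ∨ s % 6 = 3 ∨ s % 6 = 5 := by omega
  have hA : s < 6 * k → s % 6 ≠ 1 := by
    intro h1 h2
    apply h 0
    simp only [g]
    rw [if_pos (by omega), if_pos (by omega), if_pos (by omega), if_pos (by omega)]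
  have hB : s < 6 * k - 1 → s % 6 ≠ 5 := by
    intro h1 h2
    apply h 1
    simp only [g]
    rw [if_pos (by omega), if_pos (by omega), if_pos (by omega), if_pos (by omega)]
  have hC : 6 * k ≤ s → s < 12 * k → s % 6 ≠ 1 := by
    intro h1 h2 h3
    apply h 1
    simp only [g]
    rw [if_neg (by omega), if_pos (by omega), if_neg (by omega), if_pos (by omega),
      if_pos (by omega), if_pos (by omega)]
  have hD : s < 12 * k := by
    by_contra h1
    apply h 1
    simp only [g]
    rw [if_neg (by omega), if_neg (by omega), if_neg (by omega), if_pos (by omega),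
      if_pos (by omega)]
    omega
  have hE : s < 6 * k + 5 := by
    by_contra h1
    apply h (6 * k - 5)
    simp only [g]
    rw [if_neg (by omega), if_neg (by omega), if_pos (show 6 * k - 5 < 6 * k by omega),
      if_pos (show (6 * k - 5) % 6 < 3 by omega)]
    split_ifs <;> omega
  omega

/-- For every `k ≥ 2` the three-element game `S = {3, 6k-1, 6k+3}` is ultimately bipartite, its
expansion is exactly `S ∪ {6j+3 : 1 ≤ j < k}`, and this set differs both from `S` and from
`S^{*2} = {s + 2m : s ∈ S, m ≥ 0}`. -/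
theorem result (k : ℕ) (hk : 2 ≤ k) (S : Finset ℕ) (hS : S = {3, 6 * k - 1, 6 * k + 3}) :
    (∀ s ∈ S, 0 < s) ∧ S.card = 3 ∧ UltimatelyBipartite S ∧
    expansion S = {s : ℕ | s ∈ S ∨ ∃ j : ℕ, 1 ≤ j ∧ j < k ∧ s = 6 * j + 3} ∧
    expansion S ≠ (S : Set ℕ) ∧
    expansion S ≠ {t : ℕ | ∃ s ∈ S, ∃ m : ℕ, t = s + 2 * m} := by
  have hex : expansion S = {s : ℕ | s ∈ S ∨ ∃ j : ℕ, 1 ≤ j ∧ j < k ∧ s = 6 * j + 3} := by
    subst hS
    ext s
    simp only [expansion, Set.mem_ofPred_eq, nim_eq k hk]
    constructor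
    · rintro ⟨h0, h⟩
      rcases ex_aux k hk s h0 h with h1 | h1 | h1 | ⟨h1, h2, h3⟩
      · left; simp [h1]
      · left; simp [h1]
      · left; simp [h1]
      · right; exact ⟨s / 6, by omega, by omega, by omega⟩
    · intro h
      have h' : s = 6 * k - 1 ∨ s = 6 * k + 3 ∨ (s < 6 * k ∧ s % 6 = 3) := by
        rcases h with h | ⟨j, hj1, hjk, rfl⟩
        · simp only [Finset.mem_insert, Finset.mem_singleton] at h
          omega
        · omega
      refine ⟨by omega, fun n => ?_⟩
      unfold g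
      rcases h' with rfl | rfl | ⟨h1, h2⟩ <;> split_ifs <;> omega
  refine ⟨?_, ?_, ?_, hex, ?_, ?_⟩
  · subst hS
    intro s hs
    simp only [Finset.mem_insert, Finset.mem_singleton] at hs
    omega
  · subst hS
    rw [Finset.card_eq_three]
    exact ⟨3, 6 * k - 1, 6 * k + 3, by omega, by omega, by omega, rfl⟩
  · refine ⟨12 * k + 2, fun n hn => ?_⟩
    subst hS
    rw [nim_eq k hk]
    unfold g
    split_ifs <;> omega
  · intro hcon
    have h9 : (9 : ℕ) ∈ expansion S := by
      rw [hex]
      right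
      exact ⟨1, le_refl _, by omega, by norm_num⟩
    rw [hcon, Finset.mem_coe, hS] at h9
    simp only [Finset.mem_insert, Finset.mem_singleton] at h9
    omega
  · intro hcon
    have h5 : (5 : ℕ) ∈ expansion S := by
      rw [hcon]
      exact ⟨3, by simp [hS], 1, by norm_num⟩
    rw [hex] at h5
    rcases h5 with h5 | ⟨j, hj1, hjk, hj⟩
    · rw [hS] at h5
      simp only [Finset.mem_insert, Finset.mem_singleton] at h5
      omega
    · omega

end Pool.Agent.Results.MP_bd62ae_co.Disproof
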